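import Pool.Agent.Work.MP_f474fe_lc.DD.Main

/-!
Monotone decomposable circuits with values at most 1 do not detect the k-partite bipartite planted
clique.
-/

namespace Pool.Agent.Results.MP_f474fe_lc.DecomposableCircuits

open Pool.Agent.Work.MP_f474fe_lc.DD

theorem result : ∀ (m n km kn : ℕ) (E : Fin n → Fin kn), 1 ≤ km → 1 ≤ kn → kn ∣ n →
    (∀ j, (Finset.univ.filter fun v => E v = j).card = n / kn) →
    ∀ t s : ℕ, 1 ≤ t → 2 ^ (96 * t) * km ^ 2 ≤ m → 2 ^ (96 * t) * kn ^ 2 ≤ n →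
    ∀ f : (Fin m × Fin n → Bool) → ℝ, DecCirc t s f → (∀ G, f G ≤ 1) →
      |plantMean km E f - nullMean f| ≤
        5 / 2 ^ t + (s : ℝ) ^ 2 * (t / Real.sqrt ((min m n : ℕ) : ℝ)) ^ t :=
  fun m n km kn E h1 h2 h3 h4 t s ht hm hn f hf hf1 =>
    dd_main m n km kn E h1 h2 h3 h4 t s ht hm hn f hf hf1

end Pool.Agent.Results.MP_f474fe_lc.DecomposableCircuits
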