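import Pool.Agent.Work.MP_f474fe_lc.PT.Main

/-!
Tests built from polynomial threshold functions fail on the k-partite bipartite planted clique
problem.
-/

namespace Pool.Agent.Results.MP_f474fe_lc.PTFLowerBound

open Pool.Agent.Work.MP_f474fe_lc.PT

theorem result : ∀ (m n km kn : ℕ) (E : Fin n → Fin kn), 1 ≤ km → km ≤ m → 1 ≤ kn → kn ≤ n →
    kn ∣ n → (∀ j, (Finset.univ.filter fun v => E v = j).card = n / kn) →
    ∀ (s d : ℕ), 1 ≤ d → ∀ A : (Fin m × Fin n → Bool) → Bool, PTFTest s d A →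
      1 - 256 * s * d * ((Real.exp ((km : ℝ) ^ 2 / m) - 1) * (Real.exp ((kn : ℝ) ^ 2 / n) - 1)) ^
        (1 / (500 * d) : ℝ) ≤ totalError km E A :=
  fun m n km kn E h1 h2 h3 h4 h5 h6 s d hd A hA => ptf_main m n km kn E h1 h2 h3 h4 h5 h6 s d hd A hA

end Pool.Agent.Results.MP_f474fe_lc.PTFLowerBound
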