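import Pool.Agent.Work.MP_f474fe_lc.PM.Main

/-!
Polynomial threshold gates together with a polynomial modulo a prime, on top of constant-depth
circuits, fail on the k-partite bipartite planted clique problem.
-/

namespace Pool.Agent.Results.MP_f474fe_lc.ThresholdModAC0

open Pool.Agent.Work.MP_f474fe_lc.PT Pool.Agent.Work.MP_f474fe_lc.PM

theorem result : ∀ (p : ℕ), p.Prime → ∀ (m n km kn : ℕ) (E : Fin n → Fin kn),
    1 ≤ km → 1 ≤ kn → kn ∣ n → (∀ j, (Finset.univ.filter fun v => E v = j).card = n / kn) →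
    ∀ (s d e D M u K t l a b : ℕ), 1 ≤ d → 1 ≤ u → 1 ≤ K → 1 ≤ t → 1 ≤ l →
    a = m / K ^ D → b = n / kn / K ^ D → t * km ≤ a → 1 ≤ b →
    ∀ A : (Fin m × Fin n → Bool) → Bool, MixTest p s d e D M A →
      1 - 768 * s * d * (u : ℝ) ^ 2 * ((Real.exp (((t : ℝ) * km) ^ 2 / a) - 1) *
          (Real.exp ((kn : ℝ) / b) - 1)) ^ (1 / (500 * d * (u : ℝ) ^ 2)) -
        M * (u : ℝ) ^ 2 * (8 * (u : ℝ) ^ 2) ^ (2 * u ^ 2) / (K : ℝ) ^ (2 * u) -
        6 * ((p : ℝ) - 1) ^ 2 * e * (u : ℝ) ^ 2 * 2 ^ l / (t * l) - 72 * t / 2 ^ l ≤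
        totalError km E A :=
  fun p hp m n km kn E h1 h2 _ h4 s d e D M u K t l a b h5 h6 h7 h8 h9 h10 h11 h12 h13 A hA =>
    pm_main p hp m n km kn E h1 h2 h4 s d e D M u K t l a b h5 h6 h7 h8 h9 h10 h11 h12 h13 A hA

end Pool.Agent.Results.MP_f474fe_lc.ThresholdModAC0
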